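import Pool.Agent.MP_d99b12_co.H57.ALL

/-! # The end game in characteristic two (MP_d99b12_co) -/

namespace Pool.Agent.MP_d99b12_co.H67

open Matrix Module H57 H57.ATL

variable {p : ℕ} [Fact p.Prime] {F : Type} [Field F] [Fintype F] [Algebra (ZMod p) F]

lemma zmod_two' : ∀ t : ZMod 2, t = 0 ∨ t = 1 := by decide

lemma zmod_two (hp : p = 2) (t : ZMod p) : t = 0 ∨ t = 1 := by
  subst hp
  exact zmod_two' t

/-- One item of a class closes the case in which no set of items can be dropped. -/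
lemma heavy2 (hp : p = 2) {ι E : Type} [Fintype ι] [DecidableEq ι] [DecidableEq E] {O : Finset ι}
    {S : Finset E} {a : E → ι → F} {z : E → F} {X : E → Submodule (ZMod p) F} {r : ℕ}
    {Y : Submodule (ZMod p) F} (hO : 2 ≤ O.card) (hI : Items O S a z X r Y)
    (hNA : NoA O S a z X r Y) {i1 : ι} (o1 : i1 ∈ O) {f : E} (hf : f ∈ S) {s : F}
    (hs : Jump O i1 (a f) s) : Good O O S a z X := by
  obtain ⟨i2, o2, n21⟩ := Finset.exists_mem_ne hO i1
  obtain ⟨hz, hX⟩ := (Yh_le_jump hs o1 o2 n21).1 (hI f hf).2.2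
  have hrX : r ≤ finrank (ZMod p) (mulX s (X f)) := by
    rw [finrank_mulX hs.1]; exact (hI f hf).2.1
  have R0 : RC (S.erase f) (fun e => Yh O (a e) (z e) (X e)) (mulX s (X f)) Y := by
    intro Y' k1 k2
    rcases k2.eq_or_lt with rfl | k3
    · omega
    · have k4 := hNA Y' k3 (hrX.trans (Submodule.finrank_mono k1))
      have k5 : (DD S (fun e => Yh O (a e) (z e) (X e)) Y').card ≤
          (DD (S.erase f) (fun e => Yh O (a e) (z e) (X e)) Y').card + 1 := by
        refine le_trans (Finset.card_le_card fun e he => ?_) (Finset.card_insert_le f _)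
        by_cases k : e = f
        · exact k ▸ Finset.mem_insert_self _ _
        · exact Finset.mem_insert_of_mem (mem_DD.2 ⟨Finset.mem_erase.2
            ⟨k, (mem_DD.1 he).1⟩, (mem_DD.1 he).2⟩)
      rw [show p - 1 = 1 by omega] at k4
      omega
  let mv : E → Set (F × F) := fun e =>
    {m | ∃ i ∈ O, m = (0, (a e i1 - a e i) * z e) ∨
      ∃ ξ ∈ X e, m = ((a e i1 - a e i) * z e, (a e i1 - a e i) * ξ)}
  obtain ⟨w, hw1, hw2⟩ := cov (ZMod p) F E (S.erase f) mv (fun e => Yh O (a e) (z e) (X e))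
    (mulX s (X f)) Y hX (fun e he => (hI e (Finset.mem_of_mem_erase he)).2.2)
    (fun e _ => Yh_le.2 fun i hi i' hi' => ⟨by
      rw [show (a e i - a e i') * z e = (a e i1 - a e i') * z e - (a e i1 - a e i) * z e by ring]
      exact Submodule.sub_mem _ (Submodule.subset_span ⟨_, ⟨i', hi', Or.inl rfl⟩, rfl⟩)
        (Submodule.subset_span ⟨_, ⟨i, hi, Or.inl rfl⟩, rfl⟩), fun x hx => by
      rw [show (a e i - a e i') * x = (a e i1 - a e i') * x - (a e i1 - a e i) * x by ring]
      exact Submodule.sub_mem _ (Submodule.subset_span ⟨_, ⟨i', hi', Or.inr ⟨x, hx, rfl⟩⟩, rfl⟩)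
        (Submodule.subset_span ⟨_, ⟨i, hi, Or.inr ⟨x, hx, rfl⟩⟩, rfl⟩)⟩)
    (by
      rintro e - m ⟨i, hi, rfl | ⟨x, hx, rfl⟩⟩
      exacts [⟨zero_mem _, z_mem_Yh o1 hi _⟩, ⟨z_mem_Yh o1 hi _, x_mem_Yh o1 hi _ hx⟩])
    R0 _ (Y.neg_mem hz)
  have key : ∀ e, ∃ v ξ : F, e ∈ S.erase f → ξ ∈ X e ∧ v * (z e + ξ) = w e ∧
      (v = 0 ∨ ∃ i ∈ O, v = a e i1 - a e i) := by
    intro e
    by_cases he : e ∈ S.erase f
    · rcases hw1 e he with k | ⟨m, ⟨i, hi, rfl | ⟨x, hx, rfl⟩⟩, t, k⟩
      · exact ⟨0, 0, fun _ => ⟨zero_mem _, by rw [k, zero_mul], Or.inl rfl⟩⟩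
      · rcases zmod_two hp t with rfl | rfl
        · exact ⟨0, 0, fun _ => ⟨zero_mem _, by rw [k]; simp, Or.inl rfl⟩⟩
        · exact ⟨_, 0, fun _ => ⟨zero_mem _, by rw [k]; simp, Or.inr ⟨i, hi, rfl⟩⟩⟩
      · refine ⟨_, t • x, fun _ => ⟨(X e).smul_mem t hx, ?_, Or.inr ⟨i, hi, rfl⟩⟩⟩
        rw [k, Algebra.smul_def t, Algebra.smul_def t]
        ring
    · exact ⟨0, 0, fun k => absurd k he⟩
  choose v ξ hv using key
  obtain ⟨x0, hx0, e0⟩ := hw2
  have e0' : s * x0 = -(s * z f) - ∑ e ∈ S.erase f, w e := e0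
  set V : E → F := fun e => if e = f then s else v e with hV
  have Vf : V f = s := if_pos rfl
  have Ve : ∀ e, e ≠ f → V e = v e := fun e he => if_neg he
  refine ⟨V, ⟨f, hf, by rw [Vf]; exact hs.1⟩, fun u hu => ⟨u f / s, fun e he => ?_⟩,
    fun e => if e = f then x0 else ξ e, fun e he => ?_, ?_⟩
  · have h0 := hs.1
    by_cases k : e = f
    · rw [k, Vf, div_mul_cancel₀ _ h0]
    have z0 : V e = 0 → u e = u f / s * V e := fun k' => by
      rw [hu.zero (al_self ⟨i1, o1⟩) he k', k', mul_zero]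
    rcases (hv e (Finset.mem_erase.2 ⟨k, he⟩)).2.2 with k' | ⟨i, hi, k'⟩
    · exact z0 ((Ve e k).trans k')
    by_cases c : i = i1
    · exact z0 (by rw [Ve e k, k', c, sub_self])
    obtain ⟨α, hα⟩ := hu.edge o1 hi (Ne.symm c) (fun l hl _ _ => hl) 1
    have h1 := hα f hf (by rw [Vf, one_mul, hs.2 i hi c])
    rw [hs.2 i hi c] at h1
    rw [hα e he (by rw [Ve e k, k', one_mul]), Ve e k, k', h1, mul_div_cancel_right₀ _ h0]
  · by_cases k : e = f
    · simp only [k, if_true]
      exact hx0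
    · simpa only [k, if_false] using (hv e (Finset.mem_erase.2 ⟨k, he⟩)).1
  · rw [← Finset.add_sum_erase _ _ hf, Vf,
      Finset.sum_congr rfl (g := w) fun e he => by
        have k := (Finset.mem_erase.1 he).1
        simp only [Ve e k, if_neg k, (hv e he).2.1]]
    simp only [if_true]
    linear_combination e0'

/-- The anchored zero sum lemma in characteristic two. -/
theorem atl2 (hp : p = 2) {ι E : Type} [Fintype ι] [DecidableEq ι] [DecidableEq E] (O : Finset ι)
    (S : Finset E) (a : E → ι → F) (z : E → F) (X : E → Submodule (ZMod p) F) (r : ℕ)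
    (Y : Submodule (ZMod p) F) : 2 ≤ O.card → Items O S a z X r Y →
    finrank (ZMod p) Y - r < S.card → Good O O S a z X := by
  induction n : O.card + finrank (ZMod p) Y using Nat.strong_induction_on
    generalizing O S Y with
  | _ n ih =>
  intro hO hI hc
  have hne : O.Nonempty := Finset.card_pos.1 (by omega)
  have hp2 : p - 1 = 1 := by omega
  by_cases h0 : O.card = 2
  · exact base go ι E O O S a z X r Y h0 (al_self hne) hI (by rw [hp2]; omega)
  by_cases h1 : NoA O S a z X r Y; swap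
  · simp only [NoA, not_forall, not_lt] at h1
    obtain ⟨Y', hY, hr, hD⟩ := h1
    set D := DD S (fun e => Yh O (a e) (z e) (X e)) Y' with hDd
    have hlt := Submodule.finrank_lt_finrank_of_lt hY
    refine Good.ext (al_self hne) (ih _ (by omega) O (S \ D) Y' rfl hO (items_drop hI subset_rfl
      Finset.sdiff_subset fun e he => ?_) ?_) Finset.sdiff_subset subset_rfl subset_rfl
      (Or.inl fun i hi _ => hi)
    · obtain ⟨k3, k4⟩ := Finset.mem_sdiff.1 he
      exact ⟨(hI e k3).1, by_contra fun k => k4 (mem_DD.2 ⟨k3, k⟩)⟩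
    · have := Finset.le_card_sdiff D S
      rw [hp2] at hD
      omega
  obtain ⟨i, hi⟩ := id hne
  by_cases h2 : ∃ f ∈ S, Cls O i (a f)
  · obtain ⟨f, hf, s, hs⟩ := h2
    exact heavy2 hp hO hI h1 hi hf hs
  simp only [not_exists, not_and] at h2
  have hcard := Finset.card_erase_of_mem hi
  exact Good.ext (al_self hne) (ih _ (by omega) (O.erase i) S Y rfl (by omega)
    (items_drop hI (Finset.erase_subset i O) subset_rfl fun e he =>
      ⟨(hI e he).1.erase (h2 e he), (hI e he).2.2⟩) hc) subset_rfl (Finset.erase_subset i O)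
    (Finset.erase_subset i O) (Or.inl fun i hi _ => hi)

/-- The geometric data have at most `k` items. -/
theorem fin_two (hp : p = 2) {k : ℕ} {ι E J : Type} [Fintype ι] [DecidableEq ι] [Fintype E]
    [DecidableEq E] [Fintype J] {g : Geo p F ι E J} (hk : finrank (ZMod p) F = k) (hg : g.Ax)
    (h2 : 2 ≤ Fintype.card ι) (h1 : 1 ≤ Fintype.card J) (hJ : Fintype.card J < k) :
    Fintype.card E ≤ k := by
  by_contra hE
  have hE' := Geo.card_E' hg
  obtain ⟨K, hKS, hc, h, hh, x, hx, hKx, inj⟩ :=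
    Geo.kill killx hg (S := g.E') h1 (by omega) fun _ _ => le_rfl
  refine Geo.contra hg hc hh hx hKx hKS Finset.sdiff_subset (fun e he => (Finset.mem_sdiff.1 he).2)
    (Or.inr ⟨rfl, subset_rfl⟩) (atl2 hp Finset.univ (g.E' \ K) _ _ _ (Fintype.card J) ⊤ h2
      (fun e he => ⟨hg.nc e, ?_, le_top⟩) ?_)
  · obtain ⟨k1, k2⟩ := Finset.mem_sdiff.1 he
    exact ((Geo.rank_Lv hg e g.i0).trans
      (Submodule.finrank_mono (Geo.yv_le subset_rfl k1 _))).trans
      (Geo.rank_ev le_rfl (inj e k1 k2))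
  · rw [finrank_top, hk, Finset.card_sdiff_of_subset hKS]
    omega

end Pool.Agent.MP_d99b12_co.H67
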