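import Pool.Agent.MP_d99b12_co.H67.ATL2
import Pool.Agent.MP_d99b12_co.H25.OddAll

/-! # Assembly in characteristic two (MP_d99b12_co) -/

namespace Pool.Agent.MP_d99b12_co.H67

open Matrix Module Sum H25 H25.ANEM H25.KILL H57 H30b H30b.KW

variable {F : Type} [Field F] [Fintype F]

/-- A visible petal bounds the auxiliary petal of the same system. -/
theorem killw2 {k : ℕ} (hk : 2 ≤ k) (hq : Fintype.card F = 2 ^ k) (K P W : Type) [Fintype K]
    [Fintype P] [Fintype W] (s : Sys F K) (col : P → Bool) (y : P → K → F) (B Bs : Matrix P P F)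
    (a b : P) (c : Bool) (col' : W → Bool) (y' : W → K → F) (B' : Matrix W W F) (o : W)
    (R U : Finset W) (hδ : s.δ = 0) (hd : Disp s col y B Bs 0) (hv : VisP y B Bs a b)
    (h : SDisp s col' y' B') (L : Lc c col' y' B' o R U)
    (h1 : 1 ≤ Fintype.card {k // ¬s.colK k = c}) (hJ : Fintype.card {k // ¬s.colK k = c} < k) :
    U.card ≤ k ∧ R.card ≤ k := by
  classical
  have := Fact.mk Nat.prime_two
  have := charP_of_card Nat.prime_two (by omega) hq
  let _ : Algebra (ZMod 2) F := ZMod.algebra F 2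
  obtain ⟨D0, hA⟩ := ax_mk hd hv hδ c
  obtain ⟨E, f, Y, hE, X⟩ := exists_ctx h hδ L hA
  obtain ⟨r0, hr0, hb⟩ := L.base
  have r1 : 1 ≤ R.card := Finset.card_pos.2 ⟨r0, hr0⟩
  by_cases hR : R.card = 1
  · have := fin_two rfl (finrank_of_card hq) (X.ax (p := 2) (w := 1) (w' := 1) hA (X0 := ∅)
      (Set.empty_subset _) (by simp) ((Submodule.finrank_le _).trans (by simp)) (one_mul _))
      (by simp [hR]) h1 hJ
    rw [Fintype.card_coe] at this
    omega
  have supp : ∀ r ∈ R, ∀ k, ¬¬s.colK k = c → y' r k = 0 := fun r hr k hk =>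
    row_supp h (L.colR r hr) k (not_not.1 hk)
  have li := indep (q := fun k => ¬s.colK k = c) (T := R.erase r0)
    (fun r hr => supp r (Finset.mem_of_mem_erase hr))
    fun u hu => hb u fun r hr => hu r fun k => by
      rcases hr with hr | hr
      exacts [hr (Finset.mem_of_mem_erase k), Finset.ne_of_mem_erase k hr]
  obtain ⟨w, X0, G⟩ := exists_frame hA.spanX li fun e => mem_X h hδ e
  have hc : Fintype.card (R.erase r0) + 1 = R.card := by
    rw [Fintype.card_coe, Finset.card_erase_add_one hr0]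
  have hc' : Fintype.card (Option R) = R.card + 1 := by simp
  have hle := li.fintype_card_le_finrank
  rw [finrank_fintype_fun_eq_card] at hle
  have := fin_two rfl (finrank_of_card hq) (X.ax (p := 2) (w := (of w)ᵀ)
    (w' := of fun j : R.erase r0 => res (fun k => ¬s.colK k = c) (y' j)) hA
    (G.subset (↑(Finset.univ : Finset (R.erase r0)))ᶜ)
    (fun ξ hξ => funext fun j => G.mem_perp (Finset.mem_univ j) ξ hξ)
    (G.rank_perp Finset.univ) (by
      ext i j
      exact (dotProduct_comm _ _).trans ((G.dual j i).trans (by simp [one_apply, eq_comm]))))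
    (by omega) (by omega) (by omega)
  rw [Fintype.card_coe E] at this
  omega

theorem algr_two {k : ℕ} (hk : 2 ≤ k) (hq : Fintype.card F = 2 ^ k) : ALGR F (2 * k - 1) := by
  intro K P _ _ d h0 hr hd hn ht hv
  by_contra hlt
  obtain ⟨K1, P1, _, _, d1, u1, r1, n1, v1, b1, c1⟩ := H86.closed (2 * k - 1) (by omega)
    (H30b.crude F) K P d h0 hr hd hn ht hv (not_le.1 hlt)
  have real1 : Real (2 * k - 1) d1 := fun n => by
    obtain ⟨E, _, col, N, S, kk, pp, a, b, Ω, g1, g2, g3, g4, -⟩ := c1 n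
    let g' : Fin (n + 1) → Fin (N + 1) := Fin.lastCases (Fin.last N) fun t => (a t).castSucc
    have hl : g' (Fin.last n) = Fin.last N := by simp [g']
    exact ⟨E, inferInstance, col, fun i => S (g' i), kk, fun t => pp (a t), g1.reindex _,
      fun i => g2 _, g3.sub' g4 (fun j => by simp [g']) fun j => by rw [hl]; simp⟩
  have key : ∀ c : Bool, Fintype.card {k // ¬d1.colK k = c} ≤ Fintype.card {k // d1.colK k = c} →
      False := by
    intro c hc
    obtain ⟨s1, e1, e2, e3⟩ := sys2 K1 P1 d1 real1.alg u1 r1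
    obtain ⟨a1, a2, a3⟩ := v1
    have w1 := ANEM.vis_of_devD real1.alg a3
    obtain ⟨A, hA⟩ := anem' K1 P1 s1 _ _ _ _ _ a1 a2 c (e3 P1 id Function.injective_id r1 n1) w1 e1
    have small : Fintype.card {k // ¬d1.colK k = c} < k := by
      have := H57.mins 2 k Nat.prime_two hk hq _ _ A hA (by rw [e2]; exact hc)
      rwa [e2] at this
    obtain ⟨W, _, d2, g1, g2, g3, g4, g5, ⟨x, y, g6⟩, g7⟩ :=
      pack (m := 2 * k - 1) hom (H30b.allw (ext link connect _) (auxSame _) (auxCongr _)) (auxSub _)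
        K1 P1 d1 c u1 r1 n1 ⟨a1, a2, a3⟩ b1 (by omega) c1
    have red2 : d2.Red := fun z hz => g4 z fun q => hz (inr q)
    obtain ⟨s, f1, f2, f3⟩ := sys2 K1 (W ⊕ P1) d2 g1 g2 red2
    obtain ⟨j1, j2, o, R, U, j3, j4⟩ := auxLc (2 * k - 1) K1 W c (d2.resP inl)
      (fun u v => g1.skewA.1 (inl u) (inl v)) (by
        ext u v
        exact congrFun (congrFun g2 (inl u)) (inl v)) g7
    have D1 := f3 P1 inr inr_injective g4 g5
    have V1 : VisP (d2.resP inr).y (d2.resP inr).B (d2.resP inr).Bs x y := by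
      have : d2.DevD {inr x, inr y} := fun ⟨c, h1, h2⟩ => g6 ⟨fun q => c (inr q), fun q hq => h1 _ (by
        rcases hq with rfl | rfl <;> simp), fun q hq q' hq' => h2 _ (by
        rcases hq with rfl | rfl <;> simp) _ (by rcases hq' with rfl | rfl <;> simp)⟩
      exact ANEM.vis_of_devD g1 this
    have pos : 1 ≤ Fintype.card {k // ¬s.colK k = c} := by
      have ne : (d2.resP inr).colP x ≠ (d2.resP inr).colP y := fun e =>
        V1.2.2 ((D1.bips _ _ e).trans (D1.bip _ _ e).symm)
      obtain ⟨q, hq, yq⟩ : ∃ q, (d2.resP inr).colP q = c ∧ (d2.resP inr).y q ≠ 0 := by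
        by_cases e : (d2.resP inr).colP x = c
        · exact ⟨x, e, V1.1⟩
        · refine ⟨y, ?_, V1.2.1⟩
          revert e ne
          cases (d2.resP inr).colP x <;> cases (d2.resP inr).colP y <;> cases c <;> simp
      obtain ⟨k, hk⟩ := Function.ne_iff.1 yq
      exact Fintype.card_pos_iff.2 ⟨⟨k, fun e => hk (ANEM.row_supp D1.toSDisp hq k e)⟩⟩
    have e4 : s.colK = d1.colK := f2.trans g3
    have e5 : (d2.resP (inl : W → W ⊕ P1)).colK = d1.colK := g3
    obtain ⟨t1, t2⟩ := killw2 hk hq K1 P1 W s _ _ _ _ x y c _ _ _ o R U f1 D1 V1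
      (f3 W inl inl_injective j1 j2).toSDisp j3 pos (by rw [e4]; exact small)
    rw [e5] at j4
    omega
  have e1 := ANEM.card_split d1.colK true
  have e2 := ANEM.card_split d1.colK false
  have e3 := ANEM.card_swap d1.colK
  rcases le_total (Fintype.card {k // ¬d1.colK k = true}) (Fintype.card {k // d1.colK k = true})
    with l | l
  · exact key true l
  · exact key false (by omega)

theorem final_two (k : ℕ) (hk : 1 < k) :
    ∃ h : ℕ, ∀ (F : Type) [Field F] [Fintype F], Fintype.card F = 2 ^ k →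
      ∀ (α : Type) [Finite α] (M : Matroid α), H30.TutteConnected M (2 * k + 1) →
      ∀ (n : ℕ) (v : Fin (h + 1) → α → Fin n → F), (∀ i, H30.Rep M (v i)) →
      ∃ i j, i ≠ j ∧ H30.Equivalent M.E (v i) (v j) := by
  have := Fact.mk Nat.prime_two
  have hk0 : k ≠ 0 := by omega
  let _ := Fintype.ofFinite (GaloisField 2 k)
  have hc : Fintype.card (GaloisField 2 k) = 2 ^ k := by
    rw [← Nat.card_eq_fintype_card, GaloisField.card 2 k hk0]
  rw [show 2 * k + 1 = 2 * k - 1 + 2 by omega]
  exact final_of_main hk0 (main_of_algr (by omega) (algr_two hk hc))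

end Pool.Agent.MP_d99b12_co.H67
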